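import Pool.Agent.Q3.Base
import Pool.Agent.CU.T6
import Pool.Agent.MP_dfae13_nt.NG3W.Main
import Pool.Agent.MP_dfae13_nt.NGW.Part

/-! # [Q3] the set of bad primes of the Weil restrictions `Res_{ℚ(ω)/ℚ} E_D` -/

set_option autoImplicit false

open NumberField IsDedekindDomain
open CM27 CF
open scoped Classical

namespace Q3

theorem zw_Δ {R : Type*} [CommRing R] (o D : R) (ho : o ^ 2 + o + 1 = 0) : (W o D).Δ = 2 ^ 4 * D ^ 6 := by
  simp only [W, WeierstrassCurve.Δ, WeierstrassCurve.b₂, WeierstrassCurve.b₄, WeierstrassCurve.b₆,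
    WeierstrassCurve.b₈]
  linear_combination (64 * D ^ 6) * ho

theorem zw_map {R S : Type*} [CommRing R] [CommRing S] (f : R →+* S) (o D : R) :
    (W o D).map f = W (f o) (f D) := by
  unfold W
  rw [WeierstrassCurve.map]
  simp only [map_zero, map_neg, map_mul, map_add, map_one, map_ofNat, map_pow]

theorem zw_om : (CU.eE om : 𝓞 KK) ^ 2 + CU.eE om + 1 = 0 := by
  have h : om ^ 2 + om + 1 = 0 := by decide
  have h2 := congrArg (fun x : Eis => (CU.eE x : 𝓞 KK)) h
  simpa using h2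

/-- the set of bad primes -/
theorem badSet_W (D : Eis) (hD : D ≠ 0) :
    WR.IsBadSet (WK D) (6 * D.norm.natAbs).primeFactors := by
  have hDn : D.norm ≠ 0 := (CM27.a1_norm_pos hD).ne'
  have hN0 : D.norm.natAbs ≠ 0 := Int.natAbs_ne_zero.2 hDn
  refine ⟨fun p hp => Nat.prime_of_mem_primeFactors hp, ?_⟩
  intro p hp hpS v hv
  have hv' : (p : 𝓞 KK) ∈ v.asIdeal := hv
  have hndvd : ¬ p ∣ 6 * D.norm.natAbs := by
    intro h1
    exact hpS (Nat.mem_primeFactors.2 ⟨hp, h1, mul_ne_zero (by norm_num) hN0⟩)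
  have hp3 : p ≠ 3 := by
    rintro rfl
    exact hndvd (Dvd.dvd.mul_right (by norm_num) _)
  have hp2 : p ≠ 2 := by
    rintro rfl
    exact hndvd (Dvd.dvd.mul_right (by norm_num) _)
  have hpN : ¬ (p : ℤ) ∣ D.norm := fun h => hndvd (Dvd.dvd.mul_left (Int.natCast_dvd.1 h) _)
  have hpD : ¬ (p : ℤ) ∣ discr KK := by
    intro h
    have h1 : (discr KK).natAbs = 3 := by
      have h2 := CU.abs_discr_KK
      have h3 : |discr KK| = 3 := by exact_mod_cast h2
      rw [← Int.natCast_natAbs] at h3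
      exact_mod_cast h3
    have h2 : p ∣ 3 := by
      rw [← h1]
      exact Int.natCast_dvd.1 h
    exact hp3 ((Nat.prime_dvd_prime_iff_eq hp Nat.prime_three).1 h2)
  have hcop : ∀ n : ℤ, ¬ (p : ℤ) ∣ n → (n : 𝓞 KK) ∉ v.asIdeal := by
    intro n hn hnv
    obtain ⟨a, b, hab⟩ := (Int.isCoprime_iff_gcd_eq_one.2
      ((Int.isCoprime_iff_gcd_eq_one.1 (((Nat.prime_iff_prime_int.1 hp).irreducible.coprime_iff_not_dvd).2 hn))) :
      IsCoprime (p : ℤ) n)
    apply v.isPrime.ne_top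
    rw [Ideal.eq_top_iff_one]
    have h5 : ((a : 𝓞 KK)) * p + b * (n : 𝓞 KK) = 1 := by
      exact_mod_cast congrArg (Int.cast : ℤ → 𝓞 KK) hab
    rw [← h5]
    exact add_mem (Ideal.mul_mem_left _ _ hv') (Ideal.mul_mem_left _ _ hnv)
  refine ⟨NGW.not_ram_of_discr KK p hp hpD v hv', ?_⟩
  have e : (WK D).baseChange (v.adicCompletion KK) =
      (W (algebraMap (𝓞 KK) (v.adicCompletionIntegers KK) (CU.eE om))
        (algebraMap (𝓞 KK) (v.adicCompletionIntegers KK) (CU.eE D))).map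
        (algebraMap (v.adicCompletionIntegers KK) (v.adicCompletion KK)) := by
    rw [WK, WeierstrassCurve.baseChange, zw_map, zw_map]
    rfl
  rw [e]
  refine NG3W.hasGoodReduction_of_unit _ _ _ ?_
  have ho : (algebraMap (𝓞 KK) (v.adicCompletionIntegers KK) (CU.eE om)) ^ 2 +
      algebraMap (𝓞 KK) (v.adicCompletionIntegers KK) (CU.eE om) + 1 = 0 := by
    have h1 := congrArg (algebraMap (𝓞 KK) (v.adicCompletionIntegers KK)) zw_om
    simpa only [map_add, map_pow, map_one, map_zero] using h1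
  rw [zw_Δ _ _ ho]
  refine (IsUnit.pow 4 ?_).mul (IsUnit.pow 6 ?_)
  · have h1 : (2 : v.adicCompletionIntegers KK) =
        algebraMap (𝓞 KK) (v.adicCompletionIntegers KK) ((2 : ℤ) : 𝓞 KK) := by
      rw [Int.cast_ofNat, map_ofNat]
    rw [h1]
    apply CMT.isUnit_completion'
    apply hcop
    intro h
    exact hp2 ((Nat.prime_dvd_prime_iff_eq hp Nat.prime_two).1 (by exact_mod_cast h))
  · apply CMT.isUnit_completion'
    intro h
    refine hcop D.norm hpN ?_
    have h1 : ((D.norm : ℤ) : 𝓞 KK) = CU.eE D * CU.eE (star D) := by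
      rw [← map_mul, ← CM27.a2_cast_norm, map_intCast]
    rw [h1]
    exact Ideal.mul_mem_right _ _ h

end Q3
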